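import Mathlib
import Pool.Agent.N964.GX.Stm4
import Pool.Agent.N964.GX.Stm2

/-!
# Project GX, part MU (helper344): the Moebius function of ideals
-/

set_option autoImplicit false
set_option linter.unusedVariables false

namespace Pool.Agent.N344.GX

open NumberField
open Pool.Agent.N964.GX (IsInv coI)
open UniqueFactorizationMonoid

open Classical in
/-- the Moebius function of ideals -/
noncomputable def mu (K : Type) [Field K] [NumberField K] (𝔞 : Ideal (𝓞 K)) : ℤ :=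
  if Squarefree 𝔞 then (-1) ^ (UniqueFactorizationMonoid.normalizedFactors 𝔞).card else 0

section

variable {K : Type} [Field K] [NumberField K]

open Classical in
/-- the sum of the Moebius function over the divisors -/
theorem sum_mu (𝔠 : Ideal (𝓞 K)) (h0 : 𝔠 ≠ 0) (W : Finset (Ideal (𝓞 K)))
    (hW : ∀ 𝔞, 𝔞 ∣ 𝔠 → 𝔞 ∈ W) :
    ∑ 𝔞 ∈ W.filter (fun 𝔞 => 𝔞 ∣ 𝔠), mu K 𝔞 = if 𝔠 = 1 then 1 else 0 := by
  have hprime : ∀ p ∈ normalizedFactors 𝔠, Prime p := fun p hp => prime_of_normalized_factor p hp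
  have key : ∑ s ∈ (normalizedFactors 𝔠).toFinset.powerset, (-1 : ℤ) ^ s.card =
      ∑ 𝔞 ∈ (W.filter (fun 𝔞 => 𝔞 ∣ 𝔠)).filter (fun 𝔞 => Squarefree 𝔞),
        (-1 : ℤ) ^ (normalizedFactors 𝔞).card := by
    have hnf : ∀ s : Finset (Ideal (𝓞 K)), s ⊆ (normalizedFactors 𝔠).toFinset →
        normalizedFactors (s.val.prod) = s.val := by
      intro s hs
      refine normalizedFactors_prod_of_prime ?_
      intro p hp
      exact hprime p (Multiset.mem_toFinset.1 (hs hp))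
    have hle : ∀ s : Finset (Ideal (𝓞 K)), s ⊆ (normalizedFactors 𝔠).toFinset →
        s.val ≤ normalizedFactors 𝔠 := by
      intro s hs
      rw [Multiset.le_iff_subset s.nodup]
      intro p hp
      exact Multiset.mem_toFinset.1 (hs hp)
    refine Finset.sum_bij (fun s _ => s.val.prod) ?_ ?_ ?_ ?_
    · intro s hs
      rw [Finset.mem_powerset] at hs
      have hdvd : s.val.prod ∣ 𝔠 := by
        have h1 := Multiset.prod_dvd_prod_of_le (hle s hs)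
        have h2 : (normalizedFactors 𝔠).prod = 𝔠 :=
          associated_iff_eq.1 (prod_normalizedFactors h0)
        rwa [h2] at h1
      have hne : s.val.prod ≠ 0 := fun h => h0 (by rw [h] at hdvd; exact zero_dvd_iff.1 hdvd)
      rw [Finset.mem_filter, Finset.mem_filter]
      refine ⟨⟨hW _ hdvd, hdvd⟩, ?_⟩
      rw [squarefree_iff_nodup_normalizedFactors hne, hnf s hs]
      exact s.nodup
    · intro s hs t ht h
      rw [Finset.mem_powerset] at hs ht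
      have h1 : s.val = t.val := by
        rw [← hnf s hs, ← hnf t ht]
        exact congrArg _ h
      exact Finset.val_inj.1 h1
    · intro 𝔞 h𝔞
      rw [Finset.mem_filter, Finset.mem_filter] at h𝔞
      obtain ⟨⟨-, hdvd⟩, hsq⟩ := h𝔞
      have hne : 𝔞 ≠ 0 := hsq.ne_zero
      have hnd := (squarefree_iff_nodup_normalizedFactors hne).1 hsq
      refine ⟨⟨normalizedFactors 𝔞, hnd⟩, ?_, ?_⟩
      · rw [Finset.mem_powerset]
        intro p hp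
        rw [Multiset.mem_toFinset]
        exact Multiset.mem_of_le
          ((dvd_iff_normalizedFactors_le_normalizedFactors hne h0).1 hdvd) hp
      · exact associated_iff_eq.1 (prod_normalizedFactors hne)
    · intro s hs
      rw [Finset.mem_powerset] at hs
      rw [hnf s hs]
      rfl
  have h1 : ∑ 𝔞 ∈ W.filter (fun 𝔞 => 𝔞 ∣ 𝔠), mu K 𝔞 =
      ∑ 𝔞 ∈ (W.filter (fun 𝔞 => 𝔞 ∣ 𝔠)).filter (fun 𝔞 => Squarefree 𝔞),
        (-1 : ℤ) ^ (normalizedFactors 𝔞).card := by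
    rw [Finset.sum_filter (p := fun 𝔞 => Squarefree 𝔞)]
    rfl
  rw [h1, ← key, Finset.sum_powerset_neg_one_pow_card]
  congr 1
  rw [Multiset.toFinset_eq_empty]
  apply propext
  constructor
  · intro h
    have h2 : (normalizedFactors 𝔠).prod = 𝔠 := associated_iff_eq.1 (prod_normalizedFactors h0)
    rw [h] at h2
    rw [← h2, Multiset.prod_zero]
  · intro h
    rw [h, normalizedFactors_one]

/-- the ideals of norm `m` -/
noncomputable def T (K : Type) [Field K] [NumberField K] (m : ℕ) : Finset (Ideal (𝓞 K)) :=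
  if h : 0 < m then (Ideal.finite_setOfPred_absNorm_eq (S := 𝓞 K) m).toFinset else ∅

theorem mem_T (m : ℕ) (hm : 0 < m) (𝔞 : Ideal (𝓞 K)) : 𝔞 ∈ T K m ↔ Ideal.absNorm 𝔞 = m := by
  unfold T
  rw [dif_pos hm]
  simp

theorem fsum_T (m : ℕ) (hm : 0 < m) (g : Ideal (𝓞 K) → ℂ) :
    ∑ᶠ 𝔞 ∈ {𝔞 : Ideal (𝓞 K) | Ideal.absNorm 𝔞 = m}, g 𝔞 = ∑ 𝔞 ∈ T K m, g 𝔞 := by
  rw [finsum_mem_eq_finite_toFinset_sum _ (Ideal.finite_setOfPred_absNorm_eq (S := 𝓞 K) m)]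
  unfold T
  rw [dif_pos hm]

theorem mu_inv (ψ : Ideal (𝓞 K) →*₀ ℂ) : IsInv (coI ψ)
    (fun n => ∑ᶠ 𝔞 ∈ {𝔞 : Ideal (𝓞 K) | Ideal.absNorm 𝔞 = n}, (mu K 𝔞 : ℂ) * ψ 𝔞) := by
  classical
  intro n hn
  have hn0 : n ≠ 0 := by omega
  have e1 : ∑ d ∈ n.divisors, coI ψ d *
      (fun n => ∑ᶠ 𝔞 ∈ {𝔞 : Ideal (𝓞 K) | Ideal.absNorm 𝔞 = n}, (mu K 𝔞 : ℂ) * ψ 𝔞) (n / d) =
      ∑ d ∈ n.divisors, ∑ p ∈ T K d ×ˢ T K (n / d), (mu K p.2 : ℂ) * ψ (p.1 * p.2) := by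
    refine Finset.sum_congr rfl fun d hd => ?_
    have hd0 : 0 < d := Nat.pos_of_mem_divisors hd
    have hnd : 0 < n / d := Nat.div_pos (Nat.divisor_le hd) hd0
    unfold coI
    rw [fsum_T d hd0]
    simp only []
    rw [fsum_T (n / d) hnd, Finset.sum_mul_sum, Finset.sum_product]
    refine Finset.sum_congr rfl fun 𝔟 _ => Finset.sum_congr rfl fun 𝔞 _ => ?_
    rw [map_mul]
    ring
  set W : Finset (Ideal (𝓞 K)) := n.divisors.biUnion (T K) with hWdef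
  have e2 : ∑ d ∈ n.divisors, ∑ p ∈ T K d ×ˢ T K (n / d), (mu K p.2 : ℂ) * ψ (p.1 * p.2) =
      ∑ 𝔠 ∈ T K n, ∑ 𝔞 ∈ W.filter (fun 𝔞 => 𝔞 ∣ 𝔠), (mu K 𝔞 : ℂ) * ψ 𝔠 := by
    rw [Finset.sum_sigma', Finset.sum_sigma']
    refine Finset.sum_bij (fun q _ => (⟨q.2.1 * q.2.2, q.2.2⟩ : Σ _ : Ideal (𝓞 K), Ideal (𝓞 K)))
      ?_ ?_ ?_ ?_
    · rintro ⟨d, 𝔟, 𝔞⟩ hq
      rw [Finset.mem_sigma, Finset.mem_product] at hq
      obtain ⟨hd, hb, ha⟩ := hq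
      simp only at hd hb ha
      have hd0 : 0 < d := Nat.pos_of_mem_divisors hd
      have hnd : 0 < n / d := Nat.div_pos (Nat.divisor_le hd) hd0
      rw [mem_T d hd0] at hb
      have ha' := (mem_T (n / d) hnd 𝔞).1 ha
      rw [Finset.mem_sigma]
      refine ⟨?_, ?_⟩
      · show 𝔟 * 𝔞 ∈ T K n
        rw [mem_T n hn, map_mul, hb, ha']
        exact Nat.mul_div_cancel' (Nat.dvd_of_mem_divisors hd)
      · show 𝔞 ∈ W.filter (fun 𝔞' => 𝔞' ∣ 𝔟 * 𝔞)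
        rw [Finset.mem_filter]
        refine ⟨?_, Dvd.intro_left _ rfl⟩
        rw [hWdef, Finset.mem_biUnion]
        exact ⟨n / d, Nat.mem_divisors.2
          ⟨Nat.div_dvd_of_dvd (Nat.dvd_of_mem_divisors hd), hn0⟩, ha⟩
    · rintro ⟨d, 𝔟, 𝔞⟩ hq ⟨d', 𝔟', 𝔞'⟩ hq' h
      rw [Finset.mem_sigma, Finset.mem_product] at hq hq'
      obtain ⟨hd, hb, ha⟩ := hq
      obtain ⟨hd', hb', ha'⟩ := hq'
      simp only at hd hb ha hd' hb' ha'
      have hd0 : 0 < d := Nat.pos_of_mem_divisors hd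
      have hd0' : 0 < d' := Nat.pos_of_mem_divisors hd'
      have hnd : 0 < n / d := Nat.div_pos (Nat.divisor_le hd) hd0
      simp only [Sigma.mk.injEq, heq_eq_eq] at h
      obtain ⟨h1, h2⟩ := h
      subst h2
      have h𝔞0 : 𝔞 ≠ 0 := by
        rintro rfl
        have := (mem_T (n / d) hnd 0).1 ha
        rw [map_zero] at this
        omega
      have h3 : 𝔟 = 𝔟' := mul_right_cancel₀ h𝔞0 h1
      subst h3
      have h4 : d = d' := by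
        rw [mem_T d hd0] at hb
        rw [mem_T d' hd0'] at hb'
        rw [← hb, ← hb']
      subst h4
      rfl
    · rintro ⟨𝔠, 𝔞⟩ hq
      rw [Finset.mem_sigma] at hq
      obtain ⟨hc, ha⟩ := hq
      simp only at hc ha
      rw [mem_T n hn] at hc
      obtain ⟨-, 𝔟, hb⟩ := Finset.mem_filter.1 ha
      have hN : Ideal.absNorm 𝔟 * Ideal.absNorm 𝔞 = n := by
        rw [← hc, hb, map_mul]
        ring
      have hb0 : 0 < Ideal.absNorm 𝔟 := Nat.pos_of_ne_zero (fun h => hn0 (by rw [← hN, h, zero_mul]))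
      have ha0 : 0 < Ideal.absNorm 𝔞 := Nat.pos_of_ne_zero (fun h => hn0 (by rw [← hN, h, mul_zero]))
      have hq : n / Ideal.absNorm 𝔟 = Ideal.absNorm 𝔞 := by
        rw [← hN]
        exact Nat.mul_div_cancel_left _ hb0
      refine ⟨⟨Ideal.absNorm 𝔟, 𝔟, 𝔞⟩, ?_, ?_⟩
      · rw [Finset.mem_sigma, Finset.mem_product]
        refine ⟨Nat.mem_divisors.2 ⟨Dvd.intro _ hN, hn0⟩, (mem_T _ hb0 _).2 rfl, ?_⟩
        show 𝔞 ∈ T K (n / Ideal.absNorm 𝔟)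
        rw [hq]
        exact (mem_T _ ha0 _).2 rfl
      · simp only [Sigma.mk.injEq, heq_eq_eq, and_true]
        rw [hb, mul_comm]
    · rintro ⟨d, 𝔟, 𝔞⟩ _
      rfl
  rw [e1, e2]
  have hWall : ∀ 𝔠 ∈ T K n, ∀ 𝔞, 𝔞 ∣ 𝔠 → 𝔞 ∈ W := by
    intro 𝔠 hc 𝔞 ha
    rw [mem_T n hn] at hc
    have h1 : Ideal.absNorm 𝔞 ∣ n := by
      rw [← hc]
      obtain ⟨𝔟, rfl⟩ := ha
      rw [map_mul]
      exact Dvd.intro _ rfl
    have h2 : 0 < Ideal.absNorm 𝔞 := Nat.pos_of_dvd_of_pos h1 (by omega)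
    rw [hWdef, Finset.mem_biUnion]
    exact ⟨_, Nat.mem_divisors.2 ⟨h1, hn0⟩, (mem_T _ h2 _).2 rfl⟩
  have e3 : ∀ 𝔠 ∈ T K n, ∑ 𝔞 ∈ W.filter (fun 𝔞 => 𝔞 ∣ 𝔠), (mu K 𝔞 : ℂ) * ψ 𝔠 =
      if 𝔠 = 1 then 1 else 0 := by
    intro 𝔠 hc
    have hc0 : 𝔠 ≠ 0 := by
      rintro rfl
      have := (mem_T n hn 0).1 hc
      rw [map_zero] at this
      omega
    rw [← Finset.sum_mul, ← Int.cast_sum, sum_mu 𝔠 hc0 W (hWall 𝔠 hc)]
    split_ifs with h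
    · rw [h, map_one]
      simp
    · simp
  rw [Finset.sum_congr rfl e3, Finset.sum_ite_eq' (T K n) 1]
  congr 1
  rw [mem_T n hn, map_one]
  exact propext eq_comm

theorem mu_sum (g : Ideal (𝓞 K) → ℂ) (x : ℝ) (hx : 0 ≤ x) :
    ∑ n ∈ Finset.Icc 1 ⌊x⌋₊, ∑ᶠ 𝔞 ∈ {𝔞 : Ideal (𝓞 K) | Ideal.absNorm 𝔞 = n}, g 𝔞 =
      ∑ᶠ 𝔞 ∈ {𝔞 : Ideal (𝓞 K) | 𝔞 ≠ ⊥ ∧ (Ideal.absNorm 𝔞 : ℝ) ≤ x}, g 𝔞 := by
  classical
  have e1 : ∑ n ∈ Finset.Icc 1 ⌊x⌋₊, ∑ᶠ 𝔞 ∈ {𝔞 : Ideal (𝓞 K) | Ideal.absNorm 𝔞 = n}, g 𝔞 =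
      ∑ n ∈ Finset.Icc 1 ⌊x⌋₊, ∑ 𝔞 ∈ T K n, g 𝔞 := by
    refine Finset.sum_congr rfl fun n hn => ?_
    rw [Finset.mem_Icc] at hn
    exact fsum_T n (by omega) g
  have hdisj : (↑(Finset.Icc 1 ⌊x⌋₊) : Set ℕ).PairwiseDisjoint (T K) := by
    intro m hm n hn hmn
    rw [Finset.mem_coe, Finset.mem_Icc] at hm hn
    show Disjoint (T K m) (T K n)
    rw [Finset.disjoint_left]
    intro 𝔞 h1 h2
    rw [mem_T m (by omega)] at h1
    rw [mem_T n (by omega)] at h2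
    exact hmn (h1.symm.trans h2)
  rw [e1, ← Finset.sum_biUnion hdisj]
  symm
  apply finsum_mem_eq_sum_of_inter_support_eq
  have hset : {𝔞 : Ideal (𝓞 K) | 𝔞 ≠ ⊥ ∧ (Ideal.absNorm 𝔞 : ℝ) ≤ x} =
      (↑((Finset.Icc 1 ⌊x⌋₊).biUnion (T K)) : Set (Ideal (𝓞 K))) := by
    ext 𝔞
    rw [Set.mem_setOf_eq, Finset.mem_coe, Finset.mem_biUnion]
    constructor
    · rintro ⟨h1, h2⟩
      have h3 : 0 < Ideal.absNorm 𝔞 := Nat.pos_of_ne_zero (fun h => h1 (Ideal.absNorm_eq_zero_iff.1 h))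
      exact ⟨Ideal.absNorm 𝔞, Finset.mem_Icc.2 ⟨h3, Nat.le_floor h2⟩, (mem_T _ h3 _).2 rfl⟩
    · rintro ⟨n, hn, h⟩
      rw [Finset.mem_Icc] at hn
      rw [mem_T n (by omega)] at h
      refine ⟨?_, ?_⟩
      · rintro rfl
        rw [Ideal.absNorm_bot] at h
        omega
      · rw [h]
        exact (Nat.le_floor_iff hx).1 hn.2
  rw [hset]

end

end Pool.Agent.N344.GX
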